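import Pool.Agent.Lib.MP_a66ead_an.Q3.Sys

/-! A norm at distance three from all dual spaces. -/

namespace Pool.Agent.Lib.MP_a66ead_an.Q3

open Filter Topology

universe v

variable {X : Type*} [NormedAddCommGroup X] [NormedSpace ℝ X] {ι : Type} [Fintype ι]
  [DecidableEq ι] {n : ℕ}

/-- Vectors `a`, dual vectors `c` and coefficients `φ` that cancel every linear correction. -/
structure Design (a c : Fin n → ι → ℝ) (φ : Fin n → Fin n → ℝ) : Prop where
  pos : 0 < n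
  l0 : ∀ p q, |φ p q| ≤ 1
  l1 : ∀ p q, |φ p q + ∑ i, c p i * a q i| ≤ 1
  dg : ∀ p, φ p p = -1
  dc : ∀ p, ∑ i, c p i * a p i = 2
  can : ∀ q i, ∑ p, φ p q * a p i = 0

theorem low {x : Fin n → X} {ξ : Fin n → StrongDual ℝ X} {z : ℕ → ι → X}
    {h : ℕ → ι → StrongDual ℝ X} {K : ℝ} (F : Frame x ξ z h K) {a c : Fin n → ι → ℝ}
    {φ : Fin n → Fin n → ℝ} (D : Design a c φ) : ∃ N : Seminorm ℝ X,
      (∃ s t : ℝ, 0 < s ∧ 0 < t ∧ ∀ v : X, s * ‖v‖ ≤ N v ∧ N v ≤ t * ‖v‖) ∧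
      ∀ (Z : Type v) [NormedAddCommGroup Z] [NormedSpace ℝ Z]
        (T : X ≃ₗ[ℝ] StrongDual ℝ Z) (s t : ℝ),
        (∀ v : X, ‖T v‖ ≤ s * N v) → (∀ v : X, N v ≤ t * ‖T v‖) → 3 ≤ s * t := by
  obtain ⟨f, hf⟩ : ∃ f : Fin n × ℕ → StrongDual ℝ X,
      ∀ k, f k = ∑ i, c k.1 i • h k.2 i + ∑ q, φ k.1 q • ξ q := ⟨_, fun _ => rfl⟩
  have hf' : ∀ k v, f k v = ∑ i, c k.1 i * h k.2 i v + ∑ q, φ k.1 q * ξ q v := fun k v => by
    simp only [hf, add_apply, sum_apply, smul_apply, smul_eq_mul]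
  obtain ⟨B, B0, hB⟩ : ∃ B : NNReal, 0 < (B : ℝ) ∧ ∀ k, ‖f k‖ ≤ B := by
    obtain ⟨B, hB⟩ := Finite.exists_le fun p => ∑ i, |c p i| * K + ‖∑ q, φ p q • ξ q‖
    refine ⟨⟨max B 1, by positivity⟩, lt_max_of_lt_right one_pos, fun k => ?_⟩
    refine le_max_of_le_left (le_trans ?_ (hB k.1))
    rw [hf]
    refine (norm_add_le _ _).trans (add_le_add_left (norm_sum_le_of_le _ fun i _ => ?_) _)
    rw [norm_smul]
    exact mul_le_mul_of_nonneg_left (F.bh _ _) (norm_nonneg _)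
  obtain ⟨G, hG⟩ : ∃ G : Fin n → ℕ → (ι → X) → X,
      ∀ q m w, G q m w = x q + ∑ j, a q j • (w j - z m j) := ⟨_, fun _ _ _ => rfl⟩
  obtain ⟨R, R0, hR⟩ : ∃ R : NNReal, 0 < (R : ℝ) ∧ ∀ q m M, ‖G q m (z M)‖ ≤ R := by
    obtain ⟨B, hB⟩ := Finite.exists_le fun q => ‖x q‖ + ∑ j, |a q j| * (K + K)
    refine ⟨⟨max B 1, by positivity⟩, lt_max_of_lt_right one_pos, fun q m M => ?_⟩
    refine le_max_of_le_left (le_trans ?_ (hB q))
    rw [hG]
    refine (norm_add_le _ _).trans (add_le_add_right (norm_sum_le_of_le _ fun i _ => ?_) _)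
    rw [norm_smul]
    exact mul_le_mul_of_nonneg_left ((norm_sub_le _ _).trans (add_le_add (F.bz _ _) (F.bz _ _)))
      (norm_nonneg _)
  have e1 : ∀ k q m w, f k (G q m w) = ∑ i, ∑ j, c k.1 i * a q j * (h k.2 i (w j) - h k.2 i (z m j))
      + φ k.1 q + ∑ r, ∑ j, φ k.1 r * a q j * (ξ r (w j) - ξ r (z 0 j)) := fun k q m w => by
    simp only [hf', hG, map_add, map_sum, map_smul, map_sub, smul_eq_mul, F.hx, F.xx, zero_add,
      mul_add, Finset.sum_add_distrib, mul_ite, mul_one, mul_zero, Finset.sum_ite_eq',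
      Finset.mem_univ, if_true, F.xz _ m, Finset.mul_sum, mul_assoc, add_assoc]
  have e2 : ∀ k q m M, m ≤ M → |f k (G q m (z M))| ≤ 1 := fun k q m M hm => by
    rw [e1]
    by_cases h1 : k.2 ≤ m
    · simpa [F.hz, F.xz _ M, h1, h1.trans hm] using D.l0 k.1 q
    by_cases h2 : k.2 ≤ M
    · simpa [F.hz, F.xz _ M, h1, h2, add_comm] using D.l1 k.1 q
    · simpa [F.hz, F.xz _ M, h1, h2] using D.l0 k.1 q
  let p : Fin n × ℕ → Seminorm ℝ X := fun k => (normSeminorm ℝ ℝ).comp (f k).toLinearMap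
  have hp : ∀ k v, p k v ≤ B * ‖v‖ := fun k v =>
    ((f k).le_opNorm v).trans (mul_le_mul_of_nonneg_right (hB k) (norm_nonneg _))
  have hbdd : BddAbove (Set.range p) := ⟨B • normSeminorm ℝ X, by
    rintro _ ⟨k, rfl⟩ v
    exact hp k v⟩
  have : Nonempty (Fin n × ℕ) := ⟨⟨0, D.pos⟩, 0⟩
  obtain ⟨N, hN⟩ : ∃ N : Seminorm ℝ X, ∀ v, N v = max ((R : ℝ)⁻¹ * ‖v‖) (⨆ k, p k v) :=
    ⟨R⁻¹ • normSeminorm ℝ X ⊔ ⨆ k, p k, fun v => by
      rw [Seminorm.sup_apply, Seminorm.iSup_apply hbdd]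
      rfl⟩
  have n1 : ∀ v, (R : ℝ)⁻¹ * ‖v‖ ≤ N v := fun v => (hN v).ge.trans' (le_max_left _ _)
  have n2 : ∀ k v, |f k v| ≤ N v := fun k v => (hN v).ge.trans' (le_max_of_le_right
    (le_ciSup (f := fun k => p k v) ⟨B * ‖v‖, by rintro _ ⟨k, rfl⟩; exact hp k v⟩ k))
  have n3 : ∀ v, N v ≤ ((R : ℝ)⁻¹ + B) * ‖v‖ := fun v => by
    have := mul_nonneg B0.le (norm_nonneg v)
    have := mul_nonneg (inv_pos.2 R0).le (norm_nonneg v)
    rw [hN, add_mul]
    exact max_le (by linarith) (ciSup_le fun k => (hp k v).trans (by linarith))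
  have n4 : ∀ q m M, m ≤ M → N (G q m (z M)) ≤ 1 := fun q m M hm => by
    rw [hN]
    exact max_le ((inv_mul_le_iff₀ R0).2 ((hR q m M).trans_eq (mul_one _).symm))
      (ciSup_le fun k => e2 k q m M hm)
  refine ⟨N, ⟨_, _, inv_pos.2 R0, by positivity, fun v => ⟨n1 v, n3 v⟩⟩,
    fun Z _ _ T s t hs ht => ?_⟩
  have x0 : x ⟨0, D.pos⟩ ≠ 0 := fun e => by simpa [e] using F.xx ⟨0, D.pos⟩ ⟨0, D.pos⟩
  have N0 := (mul_pos (inv_pos.2 R0) (norm_pos_iff.2 x0)).trans_le (n1 _)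
  have T0 : 0 < ‖T (x ⟨0, D.pos⟩)‖ := norm_pos_iff.2 fun e => x0 (T.map_eq_zero_iff.1 e)
  have s0 : 0 < s := (mul_pos_iff_of_pos_right N0).1 (T0.trans_le (hs _))
  have t0 : 0 < t := (mul_pos_iff_of_pos_right T0).1 (N0.trans_le (ht _))
  choose w _ hw using fun j => exists_wlim (hyperfilter ℕ) (fun M => T (z M j))
    (s * (((R : ℝ)⁻¹ + B) * K)) fun M => (hs _).trans (mul_le_mul_of_nonneg_left ((n3 _).trans
      (mul_le_mul_of_nonneg_left (F.bz M j) (by positivity))) s0.le)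
  have g1 : ∀ q m, N (G q m fun j => T.symm (w j)) ≤ s * t := fun q m => by
    refine (ht _).trans ((mul_le_mul_of_nonneg_left ?_ t0.le).trans_eq (mul_comm t s))
    refine ContinuousLinearMap.opNorm_le_bound _ s0.le fun y => ?_
    have h1 : Tendsto (fun M => T (G q m (z M)) y) (hyperfilter ℕ)
        (𝓝 (T (G q m fun j => T.symm (w j)) y)) := by
      simp only [hG, map_add, map_sum, map_smul, map_sub, add_apply, sum_apply,
        smul_apply, sub_apply, smul_eq_mul, T.apply_symm_apply]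
      exact tendsto_const_nhds.add (tendsto_finsetSum _ fun j _ =>
        ((hw j y).sub_const _).const_mul _)
    refine le_of_tendsto h1.norm (((eventually_ge_atTop m).filter_mono
      Nat.hyperfilter_le_atTop).mono fun M hM => ((T _).le_opNorm y).trans ?_)
    exact mul_le_mul_of_nonneg_right ((hs _).trans
      (mul_le_of_le_one_right s0.le (n4 q m M hM))) (norm_nonneg _)
  have g2 : ∀ m, ∑ q, f (q, m) (G q m fun j => T.symm (w j)) =
      ∑ q, ∑ i, ∑ j, c q i * a q j * h m i (T.symm (w j)) - n * 3 := fun m => by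
    have h1 : ∑ q, ∑ r, ∑ j, φ q r * a q j * (ξ r (T.symm (w j)) - ξ r (z 0 j)) = 0 := by
      rw [Finset.sum_comm]
      refine Finset.sum_eq_zero fun r _ => ?_
      rw [Finset.sum_comm]
      exact Finset.sum_eq_zero fun j _ => by rw [← Finset.sum_mul, D.can, zero_mul]
    simp only [e1, Finset.sum_add_distrib, h1]
    simp only [F.hz, le_refl, true_and, mul_sub, mul_ite, mul_one, mul_zero,
      Finset.sum_sub_distrib, Finset.sum_ite_eq, Finset.mem_univ, if_true, D.dc, D.dg,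
      Finset.sum_const, Finset.card_univ, Fintype.card_fin, nsmul_eq_mul]
    ring
  have g3 : Tendsto (fun m => ∑ q, ∑ i, ∑ j, c q i * a q j * h m i (T.symm (w j)))
      (hyperfilter ℕ) (𝓝 (∑ q : Fin n, ∑ i, ∑ j, c q i * a q j * 0)) :=
    tendsto_finsetSum _ fun q _ => tendsto_finsetSum _ fun i _ => tendsto_finsetSum _ fun j _ =>
      (F.lim i _).const_mul _
  have g4 : (n : ℝ) * 3 - n * (s * t) ≤ 0 := by
    simp only [mul_zero, Finset.sum_const_zero] at g3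
    refine ge_of_tendsto' g3 fun m => ?_
    have := Finset.card_nsmul_le_sum Finset.univ (fun q => f (q, m) (G q m fun j => T.symm (w j)))
      (-(s * t)) fun q _ => (abs_le.1 ((n2 _ _).trans (g1 q m))).1
    rw [g2, Finset.card_univ, Fintype.card_fin, nsmul_eq_mul] at this
    linarith
  exact le_of_mul_le_mul_left (sub_nonpos.1 g4) (Nat.cast_pos.2 D.pos)

/-- Ten equiangular lines in dimension five. -/
def da : Fin 10 → Fin 5 → ℤ := ![![1, 1, 1, -1, -1], ![1, 1, -1, 1, -1], ![1, 1, -1, -1, 1],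
  ![1, 1, -1, -1, -1], ![1, -1, 1, 1, -1], ![1, -1, 1, -1, 1], ![1, -1, 1, -1, -1],
  ![1, -1, -1, 1, 1], ![1, -1, -1, 1, -1], ![1, -1, -1, -1, 1]]

/-- Three times the dual vectors. -/
def dc (p : Fin 10) (i : Fin 5) : ℤ := da p i + ∑ j, da p j

/-- Three times the coefficients. -/
def dp (p q : Fin 10) : ℤ := if p = q then -3 else (∑ i, dc p i * da q i) / 2

theorem design : Design (fun p i => (da p i : ℝ)) (fun p i => (dc p i : ℝ) / 3)
    fun p q => (dp p q : ℝ) / 3 := by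
  have k0 : ∀ p q, |dp p q| ≤ 3 := by decide
  have k1 : ∀ p q, |dp p q + ∑ i, dc p i * da q i| ≤ 3 := by decide
  have k2 : ∀ p, ∑ i, dc p i * da p i = 6 := by decide
  have k3 : ∀ q i, ∑ p, dp p q * da p i = 0 := by decide
  refine ⟨by norm_num, fun p q => ?_, fun p q => ?_, fun p => by simp [dp], fun p => ?_,
    fun q i => ?_⟩
  · rw [abs_div, div_le_one (by norm_num), abs_of_pos (by norm_num : (0 : ℝ) < 3)]
    exact_mod_cast k0 p q
  · simp only [div_mul_eq_mul_div, ← Finset.sum_div, ← add_div]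
    rw [abs_div, div_le_one (by norm_num), abs_of_pos (by norm_num : (0 : ℝ) < 3)]
    exact_mod_cast k1 p q
  · simp only [div_mul_eq_mul_div, ← Finset.sum_div]
    rw [div_eq_iff (by norm_num), show (2 : ℝ) * 3 = 6 by norm_num]
    exact_mod_cast k2 p
  · simp only [div_mul_eq_mul_div, ← Finset.sum_div]
    rw [div_eq_zero_iff, or_iff_left (by norm_num)]
    exact_mod_cast k3 q i

end Pool.Agent.Lib.MP_a66ead_an.Q3
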