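import Pool.Agent.Lib.MP_a66ead_an.System

/-! Finitely many James systems and a biorthogonal frame. -/

namespace Pool.Agent.Lib.MP_a66ead_an.Q3

open Filter Topology

variable {X : Type*} [NormedAddCommGroup X] [NormedSpace ℝ X] {ι : Type} [Fintype ι]
  [DecidableEq ι]

theorem exists_bi {D : Type*} [NormedAddCommGroup D] [NormedSpace ℝ D]
    (S : Submodule ℝ (StrongDual ℝ D)) (hS : IsClosed (S : Set (StrongDual ℝ D)))
    [FiniteDimensional ℝ (StrongDual ℝ D ⧸ S)] {n : ℕ}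
    (hn : n ≤ Module.finrank ℝ (StrongDual ℝ D ⧸ S)) :
    ∃ (y : Fin n → StrongDual ℝ D) (K : ℝ), ∀ (m : ℕ) (v : Fin m × Fin n → StrongDual ℝ D) i,
      (∀ p, v p ∈ S) →
      ∃ g : D, ‖g‖ ≤ K ∧ (∀ p, v p g = 0) ∧ ∀ j, y j g = if i = j then 1 else 0 := by
  obtain ⟨e, he⟩ := exists_linearIndependent_of_le_finrank hn
  obtain ⟨π, hπ⟩ := (Fintype.linearCombination ℝ e).exists_leftInverse_of_injective
    (LinearMap.ker_eq_bot.2 he.fintypeLinearCombination_injective)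
  choose y hy using fun i => Submodule.Quotient.mk_surjective _ (e i)
  obtain ⟨φ, hφ⟩ : ∃ φ : Fin n → StrongDual ℝ (StrongDual ℝ D),
      ∀ i v, φ i v = π (Submodule.Quotient.mk v) i :=
    ⟨fun i => (ContinuousLinearMap.proj i).comp
      ((LinearMap.toContinuousLinearMap π).comp S.mkQL), fun _ _ => rfl⟩
  refine ⟨y, ∑ i, (‖φ i‖ + 1), fun m v i hv => ?_⟩
  obtain ⟨g, g1, g2⟩ := helly (ι := Fin m × Fin n ⊕ Fin n) (φ i) (Sum.elim v y)
  refine ⟨g, g1.trans (Finset.single_le_sum (f := fun i => ‖φ i‖ + 1) (fun _ _ => by positivity)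
    (Finset.mem_univ i)), fun p => (g2 (.inl p)).trans ?_, fun j => (g2 (.inr j)).trans ?_⟩
  · rw [hφ, Sum.elim_inl, (Submodule.Quotient.mk_eq_zero S).2 (hv p), map_zero, Pi.zero_apply]
  · have h := congrFun (LinearMap.congr_fun hπ (Pi.single j 1)) i
    rwa [LinearMap.comp_apply, Fintype.linearCombination_apply_single, one_smul, ← hy,
      LinearMap.id_apply, Pi.single_apply, ← hφ] at h

theorem exists_raw (y : ι → StrongDual ℝ (StrongDual ℝ X)) (K : ℝ)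
    (H : ∀ (m : ℕ) (v : Fin m × ι → X) i, ∃ g : StrongDual ℝ X, ‖g‖ ≤ K ∧ (∀ p, g (v p) = 0) ∧
      ∀ j, y j g = if i = j then 1 else 0) :
    ∃ (z : ℕ → ι → X) (h : ℕ → ι → StrongDual ℝ X), (∀ m i, ‖z m i‖ ≤ ‖y i‖ + 1) ∧
      (∀ m i, ‖h m i‖ ≤ K) ∧ ∀ m M i j, h m i (z M j) = if m ≤ M ∧ i = j then 1 else 0 := by
  obtain ⟨f, hf1, hf2⟩ := exists_seq_rec (α := (ι → X) × (ι → StrongDual ℝ X))
    (fun _ p => (∀ i, ‖p.1 i‖ ≤ ‖y i‖ + 1) ∧ (∀ i, ‖p.2 i‖ ≤ K) ∧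
      (∀ i j, y j (p.2 i) = if i = j then 1 else 0) ∧ ∀ i j, p.2 i (p.1 j) = y j (p.2 i))
    (fun _ p _ q => (∀ i j, q.2 i (p.1 j) = 0) ∧ ∀ i j, p.2 i (q.1 j) = y j (p.2 i)) (by
      intro n f
      choose g g1 g2 g3 using H n fun p => (f p.1).1 p.2
      choose x x1 x2 using fun j => helly (ι := Fin n × ι ⊕ ι) (y j)
        (Sum.elim (fun p => (f p.1).2 p.2) g)
      exact ⟨(x, g), ⟨x1, g1, g3, fun i j => x2 j (.inr i)⟩,
        fun m hm => ⟨fun i j => g2 i (⟨m, hm⟩, j), fun i j => x2 j (.inl (⟨m, hm⟩, i))⟩⟩)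
  refine ⟨fun m => (f m).1, fun m => (f m).2, fun m => (hf1 m).1, fun m => (hf1 m).2.1,
    fun m M i j => ?_⟩
  rcases lt_trichotomy m M with h | rfl | h
  · simp only [(hf2 m M h).2, (hf1 m).2.2.1, h.le, true_and]
  · simp only [(hf1 m).2.2.2, (hf1 m).2.2.1, le_refl, true_and]
  · simp only [(hf2 M m h).1, h.not_ge, false_and, if_false]

/-- A biorthogonal family `x, ξ` and James systems `z, h` that do not see each other. -/
structure Frame {n : ℕ} (x : Fin n → X) (ξ : Fin n → StrongDual ℝ X) (z : ℕ → ι → X)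
    (h : ℕ → ι → StrongDual ℝ X) (K : ℝ) : Prop where
  bz : ∀ m i, ‖z m i‖ ≤ K
  bh : ∀ m i, ‖h m i‖ ≤ K
  xx : ∀ a b, ξ a (x b) = if a = b then 1 else 0
  xz : ∀ a m i, ξ a (z m i) = ξ a (z 0 i)
  hx : ∀ m i b, h m i (x b) = 0
  hz : ∀ m M i j, h m i (z M j) = if m ≤ M ∧ i = j then 1 else 0
  lim : ∀ i v, Tendsto (fun m => h m i v) (hyperfilter ℕ) (𝓝 0)

theorem exists_frame (i₀ : ι) (n : ℕ) (y : ι → StrongDual ℝ (StrongDual ℝ X)) (K : ℝ)
    (H₀ : ∀ (m : ℕ) (v : Fin m × ι → X) i, ∃ g : StrongDual ℝ X, ‖g‖ ≤ K ∧ (∀ p, g (v p) = 0) ∧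
      ∀ j, y j g = if i = j then 1 else 0) :
    ∃ (x : Fin n → X) (ξ : Fin n → StrongDual ℝ X) (z : ℕ → ι → X)
      (h : ℕ → ι → StrongDual ℝ X) (K : ℝ), Frame x ξ z h K := by
  obtain ⟨z, h, hz, hh, H⟩ := exists_raw y K H₀
  choose g g1 g2 using fun i => exists_wlim (hyperfilter ℕ) (fun m => h (m + (n + 1)) i) _
    fun m => hh _ i
  have g3 : ∀ i M j, g i (z M j) = 0 := fun i M j => tendsto_nhds_unique (g2 i _)
    (tendsto_const_nhds.congr' (((eventually_ge_atTop M).filter_mono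
      Nat.hyperfilter_le_atTop).mono fun m hm => by simp only [H]; rw [if_neg fun e => by omega]))
  have k0 : 0 ≤ K := (norm_nonneg _).trans (hh 0 i₀)
  have k1 : ∀ i, ‖y i‖ + 1 ≤ ∑ i, (‖y i‖ + 1) := fun i =>
    Finset.single_le_sum (f := fun i => ‖y i‖ + 1) (fun _ _ => by positivity) (Finset.mem_univ i)
  refine ⟨fun b => z (b + 1) i₀ - z b i₀, fun a => h (a + 1) i₀, fun m => z (m + (n + 1)),
    fun m i => h (m + (n + 1)) i - g i, ∑ i, (‖y i‖ + 1) + 2 * K, fun m i => (hz _ i).trans ?_,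
    fun m i => (norm_sub_le _ _).trans ?_, fun a b => ?_, fun a m i => ?_,
    fun m i b => ?_, fun m M i j => ?_, fun i v => ?_⟩
  · linarith [k1 i]
  · linarith [norm_nonneg (y i), hh (m + (n + 1)) i, g1 i, k1 i]
  · simp only [map_sub, H, and_true, Fin.ext_iff]
    split_ifs <;> first | omega | simp
  · have := a.2
    simp only [H, show a + 1 ≤ m + (n + 1) by omega, show a + 1 ≤ 0 + (n + 1) by omega]
  · have := b.2
    simp only [sub_apply, map_sub, H, g3, sub_zero]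
    rw [if_neg fun e => by omega, if_neg fun e => by omega, sub_zero]
  · simp only [sub_apply, H, g3, sub_zero, add_le_add_iff_right]
  · simpa only [sub_apply, sub_self] using (g2 i v).sub_const (g i v)

end Pool.Agent.Lib.MP_a66ead_an.Q3
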