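import Pool.Agent.Lib.MP_a66ead_an.System

/-! A quasi-reflexive space is at distance at most three from a dual space. -/

set_option maxSynthPendingDepth 3

namespace Pool.Agent.Lib.MP_a66ead_an.Q3

open Metric

variable {Y : Type*} [NormedAddCommGroup Y] [NormedSpace ℝ Y]

theorem near_norming (f : StrongDual ℝ Y) {θ : ℝ} (h : θ < 1) :
    ∃ a : Y, ‖a‖ < 1 ∧ θ * ‖f‖ ≤ f a := by
  rcases eq_or_ne f 0 with rfl | h0
  · exact ⟨0, by simp, by simp⟩
  obtain ⟨a, h1, h2⟩ := f.exists_lt_apply_of_lt_opNorm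
    (mul_lt_of_lt_one_left (norm_pos_iff.2 h0) h)
  rcases abs_cases (f a) with e | e
  · exact ⟨a, h1, (h2.trans_eq e.1).le⟩
  · exact ⟨-a, by rwa [norm_neg], by rw [map_neg]; exact (h2.trans_eq e.1).le⟩

/-- A form of local reflexivity. -/
theorem exists_lin {Q T : Type*} [AddCommGroup Q] [Module ℝ Q] [FiniteDimensional ℝ Q] [Fintype T]
    (s : Q →ₗ[ℝ] StrongDual ℝ (StrongDual ℝ Y)) (q : T → Q) (x : T → Y) {ρ r : ℝ} (h0 : 0 < ρ)
    (hr : ρ < r) (h : ∀ j (f : StrongDual ℝ Y), f (x j) + s (q j) f ≤ ρ * ‖f‖) :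
    ∃ u : Q →ₗ[ℝ] Y, ∀ j, ‖x j + u (q j)‖ < r := by
  classical
  have r0 := h0.trans hr
  by_contra hc
  let L : (Q →ₗ[ℝ] Y) →ₗ[ℝ] T → Y := LinearMap.pi fun j => LinearMap.applyₗ (q j)
  obtain ⟨f, c, f1, f2⟩ := geometric_hahn_banach_open (convex_ball (0 : T → Y) r) isOpen_ball
    ((LinearMap.range L).convex.translate x) (Set.disjoint_left.2 (by
      rintro _ ha ⟨_, ⟨u, rfl⟩, rfl⟩
      exact hc ⟨u, fun j => (norm_le_pi_norm _ j).trans_lt (mem_ball_zero_iff.1 ha)⟩))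
  have f3 : ∀ u, c ≤ f x + f (L u) := fun u => map_add f x _ ▸ f2 _ ⟨_, ⟨u, rfl⟩, rfl⟩
  have f4 : ∀ u, f (L u) = 0 := fun u => by
    by_contra h1
    have := f3 (((c - f x - 1) / f (L u)) • u)
    rw [map_smul, map_smul, smul_eq_mul, div_mul_cancel₀ _ h1] at this
    linarith
  obtain ⟨g, hg⟩ : ∃ g : T → StrongDual ℝ Y, ∀ a, f a = ∑ j, g j (a j) :=
    ⟨fun j => f.comp (ContinuousLinearMap.single ℝ (fun _ => Y) j), fun a => by
      conv_lhs => rw [← Finset.univ_sum_single a, map_sum]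
      rfl⟩
  have g1 : ∑ j, s (q j) (g j) = 0 := by
    let b := Module.finBasis ℝ Q
    have h1 : ∀ i, ∑ j, b.repr (q j) i • g j = 0 := fun i => ContinuousLinearMap.ext fun v => by
      simpa [hg, L] using f4 ((b.coord i).smulRight v)
    calc ∑ j, s (q j) (g j) = ∑ j, ∑ i, s (b i) (b.repr (q j) i • g j) :=
          Finset.sum_congr rfl fun j _ => by
            conv_lhs => rw [← b.sum_repr (q j)]
            simp only [map_sum, map_smul, sum_apply, smul_apply]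
      _ = 0 := by
        rw [Finset.sum_comm]
        simp only [← map_sum, h1, map_zero, Finset.sum_const_zero]
  choose a a1 a2 using fun j => near_norming (g j) ((div_lt_one r0).2 hr)
  have h2 := f1 (r • a) (mem_ball_zero_iff.2 (by
    rw [norm_smul, Real.norm_of_nonneg r0.le]
    exact mul_lt_of_lt_one_right r0 ((pi_norm_lt_iff one_pos).2 a1)))
  have h3 := f3 0
  have h4 := Finset.sum_le_sum fun j (_ : j ∈ Finset.univ) => h j (g j)
  have h5 := Finset.sum_le_sum fun j (_ : j ∈ Finset.univ) =>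
    (div_le_iff₀' r0).1 ((div_mul_eq_mul_div _ _ _).symm.trans_le (a2 j))
  rw [Finset.sum_add_distrib, g1, ← hg] at h4
  rw [map_smul, smul_eq_mul, hg, Finset.mul_sum] at h2
  rw [map_zero, map_zero] at h3
  linarith

variable {S : Submodule ℝ (StrongDual ℝ (StrongDual ℝ Y))}

theorem mk_incl (hS : S = LinearMap.range (NormedSpace.inclusionInDoubleDual ℝ Y).toLinearMap)
    (y : Y) : (Submodule.Quotient.mk (NormedSpace.inclusionInDoubleDual ℝ Y y) : _ ⧸ S) = 0 :=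
  (Submodule.Quotient.mk_eq_zero S).2 (hS.ge ⟨y, rfl⟩)

/-- A linear lifting of the quotient of norm at most `2 + ε`. -/
theorem exists_lift [CompleteSpace Y]
    (hS : S = LinearMap.range (NormedSpace.inclusionInDoubleDual ℝ Y).toLinearMap)
    [FiniteDimensional ℝ (StrongDual ℝ (StrongDual ℝ Y) ⧸ S)] {ε : ℝ} (hε : 0 < ε) :
    ∃ l : (StrongDual ℝ (StrongDual ℝ Y) ⧸ S) →ₗ[ℝ] StrongDual ℝ (StrongDual ℝ Y),
      (∀ q, Submodule.Quotient.mk (l q) = q) ∧ ∀ q, ‖l q‖ ≤ (2 + ε) * ‖q‖ := by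
  have : IsClosed (S : Set (StrongDual ℝ (StrongDual ℝ Y))) :=
    hS ▸ isClosed_range_li (NormedSpace.inclusionInDoubleDual ℝ Y).toLinearMap norm_incl
  have := FiniteDimensional.proper_real (StrongDual ℝ (StrongDual ℝ Y) ⧸ S)
  obtain ⟨η, hη⟩ : ∃ η, η = ε / (5 + ε) := ⟨_, rfl⟩
  have η0 : 0 < η := by rw [hη]; positivity
  have η1 : η * (5 + ε) = ε := by rw [hη]; field_simp
  obtain ⟨s, hs⟩ := S.mkQ.exists_rightInverse_of_surjective S.range_mkQ
  have hs' : ∀ q, Submodule.Quotient.mk (s q) = q := LinearMap.congr_fun hs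
  obtain ⟨t, t1, t2, t3⟩ := finite_cover_balls_of_compact
    (isCompact_closedBall (0 : StrongDual ℝ (StrongDual ℝ Y) ⧸ S) 1) η0
  have := t2.fintype
  choose Φ Φ1 Φ2 using fun j : t => Submodule.Quotient.norm_mk_lt j.1 η0
  have Φ3 : ∀ j, ‖Φ j‖ ≤ 1 + η := fun j => by
    linarith [Φ2 j, mem_closedBall_zero_iff.1 (t1 j.2)]
  have hx : ∀ j : t, ∃ x, NormedSpace.inclusionInDoubleDual ℝ Y x = Φ j - s j := fun j =>
    hS.le ((Submodule.Quotient.eq S).1 ((Φ1 j).trans (hs' _).symm))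
  choose x hx using hx
  obtain ⟨u, hu⟩ := exists_lin s (fun j : t => j.1) x (ρ := 1 + η) (r := 1 + 2 * η)
    (by positivity) (by linarith) fun j f => by
      have h : f (x j) = Φ j f - s j f := congrArg (· f) (hx j)
      rw [h, sub_add_cancel]
      exact (le_abs_self _).trans
        (((Φ j).le_opNorm f).trans (mul_le_mul_of_nonneg_right (Φ3 j) (norm_nonneg _)))
  obtain ⟨l, hl⟩ : ∃ l : (StrongDual ℝ (StrongDual ℝ Y) ⧸ S) →L[ℝ]
      StrongDual ℝ (StrongDual ℝ Y),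
      ∀ q, l q = s q - NormedSpace.inclusionInDoubleDual ℝ Y (u q) :=
    ⟨LinearMap.toContinuousLinearMap
      (s - (NormedSpace.inclusionInDoubleDual ℝ Y).toLinearMap ∘ₗ u), fun _ => rfl⟩
  have l1 : ∀ j : t, ‖l j‖ ≤ 2 + 3 * η := fun j => by
    have e : l j = Φ j - NormedSpace.inclusionInDoubleDual ℝ Y (x j + u j) := by
      rw [hl, map_add, hx]
      abel
    have := norm_sub_le (Φ j) (NormedSpace.inclusionInDoubleDual ℝ Y (x j + u j))
    rw [norm_incl, ← e] at this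
    linarith [Φ3 j, hu j]
  have l2 : ‖l‖ ≤ 2 + 3 * η + ‖l‖ * η :=
    ContinuousLinearMap.opNorm_le_of_unit_norm (by positivity) fun q hq => by
      obtain ⟨j, hj, h⟩ := Set.mem_iUnion₂.1 (t3 (mem_closedBall_zero_iff.2 hq.le))
      have h1 := norm_add_le (l j) (l (q - j))
      have h2 := (l.le_opNorm (q - j)).trans
        (mul_le_mul_of_nonneg_left (mem_ball_iff_norm.1 h).le (norm_nonneg _))
      rw [← map_add, add_sub_cancel] at h1
      linarith [l1 ⟨j, hj⟩]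
  refine ⟨l, fun q => ?_, fun q => (l.le_opNorm q).trans
    (mul_le_mul_of_nonneg_right ?_ (norm_nonneg _))⟩
  · rw [ContinuousLinearMap.coe_coe, hl, Submodule.Quotient.mk_sub, hs', mk_incl hS, sub_zero]
  · nlinarith

theorem up [CompleteSpace Y]
    (hS : S = LinearMap.range (NormedSpace.inclusionInDoubleDual ℝ Y).toLinearMap)
    [FiniteDimensional ℝ (StrongDual ℝ (StrongDual ℝ Y) ⧸ S)] {ε : ℝ} (hε : 0 < ε) :
    ∃ (W : Submodule ℝ (StrongDual ℝ Y)) (T : Y ≃L[ℝ] StrongDual ℝ W), CompleteSpace W ∧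
      (∀ y, ‖T y‖ ≤ 1 * ‖y‖) ∧ ∀ y, ‖T.symm y‖ ≤ (3 + ε) * ‖y‖ := by
  obtain ⟨l, l1, l2⟩ := exists_lift hS hε
  let b := Module.finBasis ℝ (StrongDual ℝ (StrongDual ℝ Y) ⧸ S)
  let W : Submodule ℝ (StrongDual ℝ Y) := ⨅ i, LinearMap.ker (l (b i)).toLinearMap
  have w1 : ∀ q (w : W), l q w = 0 := fun q w => by
    have h : ∀ i, l (b i) w = 0 := (Submodule.mem_iInf _).1 w.2
    rw [← b.sum_repr q]
    simp only [map_sum, map_smul, sum_apply, smul_apply, h, smul_zero, Finset.sum_const_zero]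
  let T : Y →ₗ[ℝ] StrongDual ℝ W :=
    { toFun := fun y => (NormedSpace.inclusionInDoubleDual ℝ Y y).comp W.subtypeL
      map_add' := fun _ _ => by rw [map_add]; rfl
      map_smul' := fun _ _ => by rw [map_smul]; rfl }
  have t1 : ∀ y, ‖T y‖ ≤ 1 * ‖y‖ := fun y =>
    ContinuousLinearMap.opNorm_le_bound _ (by positivity) fun w => by
      rw [one_mul, mul_comm]
      exact w.1.le_opNorm y
  have t2 : ∀ y, ‖y‖ ≤ (3 + ε) * ‖T y‖ := fun y => by
    obtain ⟨Ψ, h1, h2⟩ := exists_extension_norm_eq W (T y)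
    obtain ⟨c, hc⟩ := (Submodule.mem_span_range_iff_exists_fun ℝ).1 (mem_span_of_iInf_ker_le_ker
      (L := fun i => (l (b i)).toLinearMap)
      (K := (Ψ - NormedSpace.inclusionInDoubleDual ℝ Y y).toLinearMap)
      fun w hw => sub_eq_zero.2 (h1 ⟨w, hw⟩))
    have h3 : l (∑ i, c i • b i) = Ψ - NormedSpace.inclusionInDoubleDual ℝ Y y :=
      ContinuousLinearMap.ext fun w => by
        simpa [map_sum, map_smul] using LinearMap.congr_fun hc w
    have h4 : ∑ i, c i • b i = Submodule.Quotient.mk Ψ := by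
      rw [← l1 (∑ i, c i • b i), h3, Submodule.Quotient.mk_sub, mk_incl hS, sub_zero]
    have h5 := norm_sub_le Ψ (l (∑ i, c i • b i))
    have h6 := (l2 (∑ i, c i • b i)).trans (mul_le_mul_of_nonneg_left
      (h4 ▸ Submodule.Quotient.norm_mk_le S Ψ) (by positivity))
    rw [h3, sub_sub_cancel, norm_incl, ← h3] at h5
    rw [← h2]
    linarith
  have t3 : Function.Surjective T := fun ψ => by
    obtain ⟨Ψ, h1, -⟩ := exists_extension_norm_eq W ψ
    obtain ⟨y, hy⟩ := hS.le ((Submodule.Quotient.eq S).1 (l1 (Submodule.Quotient.mk Ψ)).symm)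
    refine ⟨y, ContinuousLinearMap.ext fun w => ?_⟩
    have h2 := congrArg (· w.1) hy
    simp only [sub_apply, w1, sub_zero, h1] at h2
    exact h2
  let e := LinearEquiv.ofBijective T ⟨(injective_iff_map_eq_zero T).2 fun y h =>
    norm_le_zero_iff.1 (by simpa [h] using t2 y), t3⟩
  have t4 : ∀ y, ‖e.symm y‖ ≤ (3 + ε) * ‖y‖ := fun y =>
    (t2 _).trans_eq (congrArg (fun z => (3 + ε) * ‖z‖) (e.apply_symm_apply y))
  have hW : IsClosed (W : Set (StrongDual ℝ Y)) := by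
    rw [Submodule.coe_iInf]
    exact isClosed_iInter fun i => (l (b i)).isClosed_ker
  exact ⟨W, e.toContinuousLinearEquivOfBounds 1 (3 + ε) t1 t4, hW.completeSpace_coe, t1, t4⟩

/-- Finite codimension in the bidual passes to isomorphic spaces. -/
theorem fin_of_equiv {X : Type*} [NormedAddCommGroup X] [NormedSpace ℝ X] (e : X ≃L[ℝ] Y)
    (hX : FiniteDimensional ℝ (StrongDual ℝ (StrongDual ℝ X) ⧸
      LinearMap.range (NormedSpace.inclusionInDoubleDual ℝ X).toLinearMap)) :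
    FiniteDimensional ℝ (StrongDual ℝ (StrongDual ℝ Y) ⧸
      LinearMap.range (NormedSpace.inclusionInDoubleDual ℝ Y).toLinearMap) := by
  let E : StrongDual ℝ (StrongDual ℝ X) ≃L[ℝ] StrongDual ℝ (StrongDual ℝ Y) :=
    (e.arrowCongr (.refl ℝ ℝ)).arrowCongr (.refl ℝ ℝ)
  refine Module.Finite.of_surjective (Submodule.mapQ (LinearMap.range
    (NormedSpace.inclusionInDoubleDual ℝ X).toLinearMap) _ E.toLinearMap ?_) fun q => ?_
  · rintro _ ⟨x, rfl⟩
    exact ⟨e x, rfl⟩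
  · obtain ⟨Φ, rfl⟩ := Submodule.Quotient.mk_surjective _ q
    exact ⟨Submodule.Quotient.mk (E.symm Φ), congrArg _ (E.apply_symm_apply Φ)⟩

/-- Independence modulo the canonical image, in plain form. -/
theorem indep_iff {n : ℕ}
    (hS : S = LinearMap.range (NormedSpace.inclusionInDoubleDual ℝ Y).toLinearMap) :
    (∃ φ : Fin n → StrongDual ℝ (StrongDual ℝ Y), ∀ (c : Fin n → ℝ) (x : Y),
      (∀ f : StrongDual ℝ Y, ∑ i, c i * φ i f = f x) → c = 0) ↔
    n ≤ Module.rank ℝ (StrongDual ℝ (StrongDual ℝ Y) ⧸ S) := by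
  have key : ∀ (φ : Fin n → StrongDual ℝ (StrongDual ℝ Y)) (c : Fin n → ℝ),
      ∑ i, c i • S.mkQ (φ i) = 0 ↔ ∃ x, ∀ f : StrongDual ℝ Y, ∑ i, c i * φ i f = f x := by
    intro φ c
    have h : ∑ i, c i • S.mkQ (φ i) = S.mkQ (∑ i, c i • φ i) := by simp only [map_sum, map_smul]
    rw [h, Submodule.mkQ_apply, Submodule.Quotient.mk_eq_zero, hS]
    refine exists_congr fun x => ContinuousLinearMap.ext_iff.trans (forall_congr' fun f => ?_)
    rw [sum_apply]
    exact eq_comm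
  rw [Module.le_rank_iff]
  refine ⟨fun ⟨φ, h⟩ => ⟨fun i => S.mkQ (φ i), Fintype.linearIndependent_iff.2 fun c hc => ?_⟩,
    fun ⟨e, he⟩ => ?_⟩
  · obtain ⟨x, hx⟩ := (key φ c).1 hc
    exact congrFun (h c x hx)
  · choose φ hφ using fun i => S.mkQ_surjective (e i)
    refine ⟨φ, fun c x hx => funext (Fintype.linearIndependent_iff.1 he c ?_)⟩
    simpa only [hφ] using (key φ c).2 ⟨x, hx⟩

end Pool.Agent.Lib.MP_a66ead_an.Q3
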